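import Pool.Agent.TRB.Upper

set_option autoImplicit false

/-! The tribonacci constant and the size of spheres in the cube. -/

namespace Pool.Agent.TRB

open Finset

theorem tau_exists : ∃ τ : ℝ, τ ^ 3 = τ ^ 2 + τ + 1 ∧ 1.839 < τ ∧ τ < 1.84 := by
  have hcont : ContinuousOn (fun x : ℝ => x ^ 3 - x ^ 2 - x - 1) (Set.Icc 1.839 1.84) := by
    fun_prop
  have h := intermediate_value_Icc (by norm_num : (1.839 : ℝ) ≤ 1.84) hcont
  have h0 : (0 : ℝ) ∈ Set.Icc ((1.839 : ℝ) ^ 3 - 1.839 ^ 2 - 1.839 - 1)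
      ((1.84 : ℝ) ^ 3 - 1.84 ^ 2 - 1.84 - 1) := by
    constructor <;> norm_num
  obtain ⟨τ, ⟨hl, hr⟩, hz⟩ := h h0
  simp only at hz
  refine ⟨τ, by linarith, ?_, ?_⟩
  · rcases hl.lt_or_eq with h1 | h1
    · exact h1
    · rw [← h1] at hz
      norm_num at hz
  · rcases hr.lt_or_eq with h1 | h1
    · exact h1
    · rw [h1] at hz
      norm_num at hz

theorem sphere_large {τ : ℝ} (hτ : τ ^ 3 = τ ^ 2 + τ + 1) (h1 : 1.839 < τ) (h2 : τ < 1.84)
    {n : ℕ} (hn : 12 ≤ n) :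
    ∃ r : ℕ, 5 * r < n ∧
      (2 : ℝ) ^ n ≤ 2 * ((n : ℝ) + 1) * (n.choose r * τ ^ (n - 4 * r)) := by
  set σ : ℝ := 2 - τ with hσ
  have hτ0 : 0 < τ := by linarith
  have hσ0 : 0 < σ := by rw [hσ]; linarith
  have hστ : σ * τ ^ 3 = 1 := by
    rw [hσ]
    linear_combination (1 - τ) * hτ
  have hbin : (2 : ℝ) ^ n = ∑ m ∈ range (n + 1), σ ^ m * τ ^ (n - m) * n.choose m := by
    rw [← add_pow, hσ]
    congr 1
    ring
  have hbin3 : (3 * σ + τ) ^ n = ∑ m ∈ range (n + 1), (3 * σ) ^ m * τ ^ (n - m) * n.choose m :=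
    add_pow _ _ _
  -- the tail
  have htail : (∑ m ∈ (range (n + 1)).filter (fun m => ¬ 5 * m < n),
      σ ^ m * τ ^ (n - m) * n.choose m) * 1.24 ^ n ≤ (3 * σ + τ) ^ n := by
    rw [hbin3, Finset.sum_mul]
    refine le_trans ?_ (Finset.sum_le_sum_of_subset_of_nonneg
      (Finset.filter_subset (fun m => ¬ 5 * m < n) (range (n + 1))) ?_)
    · refine Finset.sum_le_sum fun m hm => ?_
      have hm' : n ≤ 5 * m := by
        have := (Finset.mem_filter.1 hm).2
        omega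
      have h3 : (1.24 : ℝ) ^ n ≤ 3 ^ m := by
        calc (1.24 : ℝ) ^ n ≤ 1.24 ^ (5 * m) := pow_le_pow_right₀ (by norm_num) hm'
          _ = (1.24 ^ 5) ^ m := by rw [pow_mul]
          _ ≤ 3 ^ m := pow_le_pow_left₀ (by norm_num) (by norm_num) m
      rw [mul_pow]
      have h4 : 0 ≤ σ ^ m * τ ^ (n - m) * n.choose m := by positivity
      calc σ ^ m * τ ^ (n - m) * n.choose m * 1.24 ^ n
          ≤ σ ^ m * τ ^ (n - m) * n.choose m * 3 ^ m := mul_le_mul_of_nonneg_left h3 h4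
        _ = 3 ^ m * σ ^ m * τ ^ (n - m) * n.choose m := by ring
    · intro m _ _
      positivity
  have hnum : 2 * (3 * σ + τ) ^ n ≤ (2 * 1.24) ^ n := by
    have h5 : (3 * σ + τ) ≤ 2.322 := by rw [hσ]; linarith
    have h6 : (3 * σ + τ) ^ n ≤ 2.322 ^ n := pow_le_pow_left₀ (by positivity) h5 n
    obtain ⟨k, rfl⟩ := Nat.exists_eq_add_of_le hn
    have h7 : (2.322 : ℝ) ^ k ≤ (2 * 1.24) ^ k := pow_le_pow_left₀ (by norm_num) (by norm_num) k
    have h8 : 2 * (2.322 : ℝ) ^ 12 ≤ (2 * 1.24) ^ 12 := by norm_num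
    calc 2 * (3 * σ + τ) ^ (12 + k) ≤ 2 * 2.322 ^ (12 + k) := by linarith
      _ = (2 * 2.322 ^ 12) * 2.322 ^ k := by rw [pow_add]; ring
      _ ≤ (2 * 1.24) ^ 12 * (2 * 1.24) ^ k :=
          mul_le_mul h8 h7 (by positivity) (by positivity)
      _ = (2 * 1.24) ^ (12 + k) := by rw [pow_add]
  have htail2 : 2 * (∑ m ∈ (range (n + 1)).filter (fun m => ¬ 5 * m < n),
      σ ^ m * τ ^ (n - m) * n.choose m) ≤ 2 ^ n := by
    have h9 : (0 : ℝ) < 1.24 ^ n := by positivity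
    rw [mul_pow] at hnum
    by_contra hcon
    have hcon' := lt_of_not_ge hcon
    have h10 := mul_lt_mul_of_pos_right hcon' h9
    linarith
  have hmain : (2 : ℝ) ^ n ≤ 2 * ∑ m ∈ (range (n + 1)).filter (fun m => 5 * m < n),
      (n.choose m * τ ^ (n - 4 * m)) := by
    have hsplit := Finset.sum_filter_add_sum_filter_not (range (n + 1)) (fun m => 5 * m < n)
      (fun m => σ ^ m * τ ^ (n - m) * (n.choose m : ℝ))
    have heq : ∑ m ∈ (range (n + 1)).filter (fun m => 5 * m < n),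
        σ ^ m * τ ^ (n - m) * (n.choose m : ℝ) =
        ∑ m ∈ (range (n + 1)).filter (fun m => 5 * m < n), (n.choose m * τ ^ (n - 4 * m)) := by
      refine Finset.sum_congr rfl fun m hm => ?_
      have hm' : 5 * m < n := (Finset.mem_filter.1 hm).2
      have h10 : τ ^ (n - m) = τ ^ (n - 4 * m) * (τ ^ 3) ^ m := by
        rw [← pow_mul, ← pow_add]
        congr 1
        omega
      calc σ ^ m * τ ^ (n - m) * (n.choose m : ℝ)
          = (σ * τ ^ 3) ^ m * τ ^ (n - 4 * m) * n.choose m := by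
            rw [h10, mul_pow]
            ring
        _ = n.choose m * τ ^ (n - 4 * m) := by
            rw [hστ]
            ring
    rw [heq] at hsplit
    linarith
  by_contra hcon
  push Not at hcon
  have hn1 : (0 : ℝ) < (n : ℝ) + 1 := by positivity
  have hlt : ∑ m ∈ (range (n + 1)).filter (fun m => 5 * m < n), (n.choose m * τ ^ (n - 4 * m)) <
      ∑ m ∈ (range (n + 1)).filter (fun m => 5 * m < n), ((2 : ℝ) ^ n / (2 * ((n : ℝ) + 1))) := by
    refine Finset.sum_lt_sum_of_nonempty ⟨0, ?_⟩ ?_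
    · simp only [mem_filter, mem_range]
      omega
    · intro m hm
      have := hcon m (Finset.mem_filter.1 hm).2
      rw [lt_div_iff₀ (by positivity)]
      linarith
  rw [Finset.sum_const, nsmul_eq_mul] at hlt
  have hcard : (#((range (n + 1)).filter (fun m => 5 * m < n)) : ℝ) ≤ (n : ℝ) + 1 := by
    have := Finset.card_filter_le (range (n + 1)) (fun m => 5 * m < n)
    rw [Finset.card_range] at this
    exact_mod_cast this
  have h11 : (#((range (n + 1)).filter (fun m => 5 * m < n)) : ℝ) *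
      ((2 : ℝ) ^ n / (2 * ((n : ℝ) + 1))) ≤ 2 ^ n / 2 := by
    calc (#((range (n + 1)).filter (fun m => 5 * m < n)) : ℝ) * ((2 : ℝ) ^ n / (2 * ((n : ℝ) + 1)))
        ≤ ((n : ℝ) + 1) * ((2 : ℝ) ^ n / (2 * ((n : ℝ) + 1))) :=
          mul_le_mul_of_nonneg_right hcard (by positivity)
      _ = 2 ^ n / 2 := by field_simp
  linarith

/-- Good parameters of spheres. -/
theorem sphere_params {τ : ℝ} (hτ : τ ^ 3 = τ ^ 2 + τ + 1) (h1 : 1.839 < τ) (h2 : τ < 1.84)
    {δ : ℝ} (hδ : 0 < δ) :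
    ∃ n r : ℕ, 5 * r < n ∧
      (2 : ℝ) ^ n ≤ 2 * ((n : ℝ) + 1) * (n.choose r * τ ^ (n - 4 * r)) ∧
      Real.logb τ (2 * ((n : ℝ) + 1)) ≤ δ * ((n - 4 * r : ℕ) : ℝ) := by
  have hlogτ : 0 < Real.log τ := Real.log_pos (by linarith)
  have ht : Filter.Tendsto (fun n : ℕ => 2 * ((n : ℝ) + 1)) Filter.atTop Filter.atTop := by
    refine Filter.Tendsto.const_mul_atTop (by norm_num) ?_
    exact Filter.tendsto_atTop_add_const_right _ _ tendsto_natCast_atTop_atTop
  have ho := (Real.isLittleO_log_id_atTop.comp_tendsto ht).def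
    (show 0 < δ * Real.log τ / 20 by positivity)
  obtain ⟨n, hn12, hn⟩ := ((Filter.eventually_ge_atTop 12).and ho).exists
  obtain ⟨r, hr, hle⟩ := sphere_large hτ h1 h2 hn12
  refine ⟨n, r, hr, hle, ?_⟩
  simp only [Function.comp, id] at hn
  rw [Real.norm_eq_abs, Real.norm_eq_abs] at hn
  have hn0 : (12 : ℝ) ≤ n := by exact_mod_cast hn12
  rw [abs_of_pos (by positivity : (0 : ℝ) < 2 * ((n : ℝ) + 1))] at hn
  have h3 := (le_abs_self _).trans hn
  rw [Real.logb, div_le_iff₀ hlogτ]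
  have h4 : ((n - 4 * r : ℕ) : ℝ) = (n : ℝ) - 4 * r := by
    rw [Nat.cast_sub (by omega)]
    push_cast
    ring
  have h5 : (5 : ℝ) * r < n := by exact_mod_cast hr
  rw [h4]
  have h6 : 2 * ((n : ℝ) + 1) ≤ 4 * n := by linarith
  have h7 : (n : ℝ) ≤ 5 * ((n : ℝ) - 4 * r) := by linarith
  calc Real.log (2 * ((n : ℝ) + 1)) ≤ δ * Real.log τ / 20 * (2 * ((n : ℝ) + 1)) := h3
    _ ≤ δ * Real.log τ / 20 * (4 * n) := mul_le_mul_of_nonneg_left h6 (by positivity)
    _ ≤ δ * Real.log τ / 20 * (4 * (5 * ((n : ℝ) - 4 * r))) :=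
        mul_le_mul_of_nonneg_left (by linarith) (by positivity)
    _ = δ * ((n : ℝ) - 4 * r) * Real.log τ := by ring

end Pool.Agent.TRB
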