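import Mathlib

set_option autoImplicit false

/-! Folder of helper49 (MP_68cffc_co, MonotoneSets). -/
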