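import Pool.Agent.TRB.Won

set_option autoImplicit false

/-! Four lower families of boolean vectors: the union of four suitable members misses few digits. -/

namespace Pool.Agent.TRB

open Finset

theorem tau_real {τ y : ℝ} (hτ : τ ^ 3 = τ ^ 2 + τ + 1) (h1 : 1 < τ) (hy : 1 ≤ y)
    (h : (2 - y) * y ^ 3 < 1) : τ < y := by
  by_contra hle
  push Not at hle
  have h2 : 0 < τ ^ 2 - τ - 1 := by
    have : τ * (τ ^ 2 - τ - 1) = 1 := by linarith [hτ, (by ring : τ * (τ ^ 2 - τ - 1) = τ ^ 3 - τ ^ 2 - τ)]
    by_contra hneg
    push Not at hneg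
    nlinarith
  have h3 : y ^ 3 - y ^ 2 - y - 1 = (y - τ) * (y ^ 2 + (τ - 1) * y + (τ ^ 2 - τ - 1)) := by
    linear_combination hτ
  have h4 : 0 < y ^ 2 + (τ - 1) * y + (τ ^ 2 - τ - 1) := by
    have : 0 < (τ - 1) * y := mul_pos (by linarith) (by linarith)
    positivity
  have h5 : y ^ 3 - y ^ 2 - y - 1 ≤ 0 := by
    rw [h3]
    exact mul_nonpos_of_nonpos_of_nonneg (by linarith) h4.le
  have h6 : y ^ 4 - 2 * y ^ 3 + 1 = (y - 1) * (y ^ 3 - y ^ 2 - y - 1) := by ring
  have h7 : (y - 1) * (y ^ 3 - y ^ 2 - y - 1) ≤ 0 :=
    mul_nonpos_of_nonneg_of_nonpos (by linarith) h5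
  nlinarith

theorem real_lemma {τ : ℝ} (hτ : τ ^ 3 = τ ^ 2 + τ + 1) (h1 : 1 < τ) (h2 : τ < 2)
    (x : Fin 4 → ℝ) (hx : ∀ i, 1 ≤ x i)
    (h : ∀ m, (2 - x m) * ∏ i ∈ univ.erase m, x i < 1) : τ ^ 4 ≤ ∏ i, x i := by
  obtain ⟨m, hm⟩ := Finite.exists_min x
  have key : τ < x m := by
    rcases le_or_gt (x m) 2 with hle | hgt
    · refine tau_real hτ h1 (hx m) (lt_of_le_of_lt ?_ (h m))
      refine mul_le_mul_of_nonneg_left ?_ (by linarith)
      have : ∏ i ∈ univ.erase m, x m ≤ ∏ i ∈ univ.erase m, x i :=
        Finset.prod_le_prod (fun i _ => by linarith [hx m]) (fun i _ => hm i)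
      rw [Finset.prod_const, Finset.card_erase_of_mem (mem_univ m)] at this
      simpa using this
    · linarith
  have : ∏ _i : Fin 4, τ ≤ ∏ i, x i :=
    Finset.prod_le_prod (fun i _ => by linarith) (fun i _ => by linarith [hm i])
  simpa using this

theorem greedy {τ : ℝ} (hτ : τ ^ 3 = τ ^ 2 + τ + 1) (h1 : 1 < τ) (h2 : τ < 2) :
    ∀ (n : ℕ) (F : Fin 4 → Finset (Fin n → Bool)),
      (∀ i, ∀ x ∈ F i, ∀ y, y ≤ x → y ∈ F i) → (∀ i, (F i).Nonempty) →
      ∃ B : Fin 4 → (Fin n → Bool), (∀ i, B i ∈ F i) ∧
        τ ^ (4 * #(univ.filter fun j => ∀ i, B i j = false)) * ∏ i, (#(F i) : ℝ) ≤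
          ((2 : ℝ) ^ n) ^ 4 := by
  classical
  intro n
  induction n with
  | zero =>
    intro F _ hne
    choose B hB using hne
    refine ⟨B, hB, ?_⟩
    have hc : ∀ i, (#(F i) : ℝ) ≤ 1 := by
      intro i
      have : #(F i) ≤ Fintype.card (Fin 0 → Bool) := Finset.card_le_univ _
      simpa using this
    have hp : ∏ i, (#(F i) : ℝ) ≤ 1 :=
      Finset.prod_le_one (fun i _ => by positivity) (fun i _ => hc i)
    simpa using hp
  | succ n ih =>
    intro F hlow hne
    set G : Bool → Fin 4 → Finset (Fin n → Bool) := fun e i =>
      univ.filter fun x : Fin n → Bool => (Fin.cons e x : Fin (n + 1) → Bool) ∈ F i with hG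
    have hcard : ∀ i, (#(F i) : ℝ) = #(G false i) + #(G true i) := by
      intro i
      have h0 := card_cons (β := Bool) (n := n) (fun x => x ∈ F i)
      rw [Fintype.sum_bool] at h0
      have h3 : #(F i) = #(G true i) + #(G false i) := by
        refine (congrArg Finset.card ?_).trans (h0.trans ?_)
        · ext x
          simp
        · congr 1 <;> (congr 1; ext x; simp [hG])
      rw [h3]
      push_cast
      ring
    have hGlow : ∀ e i, ∀ x ∈ G e i, ∀ y, y ≤ x → y ∈ G e i := by
      intro e i x hx y hyx
      simp only [hG, mem_filter, mem_univ, true_and] at hx ⊢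
      refine hlow i _ hx _ ?_
      intro j
      refine Fin.cases ?_ (fun k => ?_) j
      · simp
      · simpa using hyx k
    have hsub : ∀ i, G true i ⊆ G false i := by
      intro i x hx
      simp only [hG, mem_filter, mem_univ, true_and] at hx ⊢
      refine hlow i _ hx _ ?_
      intro j
      refine Fin.cases ?_ (fun k => ?_) j
      · simp
      · simp
    have hne0 : ∀ i, (G false i).Nonempty := by
      intro i
      obtain ⟨x, hx⟩ := hne i
      refine ⟨Fin.tail x, ?_⟩
      simp only [hG, mem_filter, mem_univ, true_and]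
      refine hlow i _ hx _ ?_
      intro j
      refine Fin.cases ?_ (fun k => ?_) j
      · simp
      · simp [Fin.tail]
    set a : Fin 4 → ℝ := fun i => #(G false i) with ha
    set b : Fin 4 → ℝ := fun i => #(G true i) with hb
    have ha1 : ∀ i, 1 ≤ a i := by
      intro i
      have := Finset.card_pos.2 (hne0 i)
      simp only [ha]
      exact_mod_cast this
    have hb0 : ∀ i, 0 ≤ b i := fun i => by simp only [hb]; positivity
    have hba : ∀ i, b i ≤ a i := by
      intro i
      simp only [ha, hb]
      exact_mod_cast Finset.card_le_card (hsub i)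
    have hcard' : ∀ i, (#(F i) : ℝ) = a i + b i := hcard
    have hpos : 0 < ∏ i, (a i + b i) :=
      Finset.prod_pos fun i _ => by linarith [ha1 i, hb0 i]
    have h16 : ((2 : ℝ) ^ (n + 1)) ^ 4 = 16 * ((2 : ℝ) ^ n) ^ 4 := by
      rw [pow_succ]
      ring
    have hprodF : ∏ i, (#(F i) : ℝ) = ∏ i, (a i + b i) := Finset.prod_congr rfl fun i _ => hcard' i
    by_cases hcase : ∃ m, ∏ i, (a i + b i) ≤ 16 * (b m * ∏ i ∈ univ.erase m, a i)
    · obtain ⟨m, hm⟩ := hcase
      have hbm : b m ≠ 0 := by
        intro h0
        rw [h0] at hm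
        simp only [zero_mul, mul_zero] at hm
        linarith
      have hnem : (G true m).Nonempty := by
        rw [Finset.nonempty_iff_ne_empty]
        intro h0
        apply hbm
        simp only [hb, h0]
        simp
      obtain ⟨B', hB', hle⟩ := ih (fun i => if i = m then G true i else G false i)
        (by
          intro i
          by_cases him : i = m
          · simpa [him] using hGlow true m
          · simpa [him] using hGlow false i)
        (by
          intro i
          by_cases him : i = m
          · simpa [him] using hnem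
          · simpa [him] using hne0 i)
      refine ⟨fun i => Fin.cons (decide (i = m)) (B' i), ?_, ?_⟩
      · intro i
        have := hB' i
        by_cases him : i = m
        · subst him
          simpa [hG] using this
        · simpa [hG, him] using this
      · have hcount : #(univ.filter fun j : Fin (n + 1) =>
            ∀ i, (Fin.cons (decide (i = m)) (B' i) : Fin (n + 1) → Bool) j = false) =
            #(univ.filter fun j => ∀ i, B' i j = false) := by
          rw [Fin.card_filter_univ_succ]
          rw [if_neg]
          · rfl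
          · intro h
            have := h m
            simp at this
        rw [hcount, hprodF, h16]
        have hprodG : ∏ i, (#(if i = m then G true i else G false i) : ℝ) =
            b m * ∏ i ∈ univ.erase m, a i := by
          rw [← Finset.mul_prod_erase univ _ (mem_univ m)]
          simp only [if_true]
          congr 1
          refine Finset.prod_congr rfl fun i hi => ?_
          rw [if_neg (Finset.ne_of_mem_erase hi)]
        rw [hprodG] at hle
        have hτ0 : 0 ≤ τ ^ (4 * #(univ.filter fun j => ∀ i, B' i j = false)) := by positivity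
        calc τ ^ (4 * #(univ.filter fun j => ∀ i, B' i j = false)) * ∏ i, (a i + b i)
            ≤ τ ^ (4 * #(univ.filter fun j => ∀ i, B' i j = false)) *
              (16 * (b m * ∏ i ∈ univ.erase m, a i)) := mul_le_mul_of_nonneg_left hm hτ0
          _ = 16 * (τ ^ (4 * #(univ.filter fun j => ∀ i, B' i j = false)) *
              (b m * ∏ i ∈ univ.erase m, a i)) := by ring
          _ ≤ 16 * ((2 : ℝ) ^ n) ^ 4 := mul_le_mul_of_nonneg_left hle (by norm_num)
    · push Not at hcase
      have hx : τ ^ 4 * ∏ i, (a i + b i) ≤ 16 * ∏ i, a i := by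
        have hs : ∀ i, 0 < a i + b i := fun i => by linarith [ha1 i, hb0 i]
        have h3 := real_lemma hτ h1 h2 (fun i => 2 * a i / (a i + b i))
          (by
            intro i
            rw [le_div_iff₀ (hs i)]
            linarith [hba i])
          (by
            intro m
            have e1 : (2 - 2 * a m / (a m + b m)) = 2 * b m / (a m + b m) := by
              field_simp [(hs m).ne']
              ring
            rw [e1, Finset.prod_div_distrib, div_mul_div_comm,
              Finset.mul_prod_erase univ (fun i => a i + b i) (mem_univ m), div_lt_one hpos]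
            have e2 : ∏ i ∈ univ.erase m, 2 * a i = 8 * ∏ i ∈ univ.erase m, a i := by
              rw [Finset.prod_mul_distrib, Finset.prod_const,
                Finset.card_erase_of_mem (mem_univ m)]
              norm_num
            rw [e2]
            have := hcase m
            linarith)
        rw [Finset.prod_div_distrib, le_div_iff₀ hpos] at h3
        have e3 : ∏ i, 2 * a i = 16 * ∏ i, a i := by
          rw [Finset.prod_mul_distrib, Finset.prod_const]
          norm_num
        linarith
      obtain ⟨B', hB', hle⟩ := ih (G false) (hGlow false) hne0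
      refine ⟨fun i => Fin.cons false (B' i), ?_, ?_⟩
      · intro i
        have := hB' i
        simpa [hG] using this
      · have hcount : #(univ.filter fun j : Fin (n + 1) =>
            ∀ i, (Fin.cons false (B' i) : Fin (n + 1) → Bool) j = false) =
            #(univ.filter fun j => ∀ i, B' i j = false) + 1 := by
          rw [Fin.card_filter_univ_succ]
          rw [if_pos]
          · simp only [Fin.cons_succ]
          · intro i
            simp
        rw [hcount, hprodF, h16]
        have hτ0 : 0 ≤ τ ^ (4 * #(univ.filter fun j => ∀ i, B' i j = false)) := by positivity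
        calc τ ^ (4 * (#(univ.filter fun j => ∀ i, B' i j = false) + 1)) * ∏ i, (a i + b i)
            = τ ^ (4 * #(univ.filter fun j => ∀ i, B' i j = false)) *
              (τ ^ 4 * ∏ i, (a i + b i)) := by
              rw [mul_add, mul_one, pow_add]
              ring
          _ ≤ τ ^ (4 * #(univ.filter fun j => ∀ i, B' i j = false)) * (16 * ∏ i, a i) :=
              mul_le_mul_of_nonneg_left hx hτ0
          _ = 16 * (τ ^ (4 * #(univ.filter fun j => ∀ i, B' i j = false)) * ∏ i, a i) := by ring
          _ ≤ 16 * ((2 : ℝ) ^ n) ^ 4 := mul_le_mul_of_nonneg_left hle (by norm_num)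

end Pool.Agent.TRB
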