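import Pool.Agent.TRB.Ball

set_option autoImplicit false

/-! Products of spheres: the upper bound for triangular sets is sharp. -/

namespace Pool.Agent.TRB

open Finset

/-- Indicator vectors of the sets with `r` elements. -/
def sphere (n r : ℕ) : Finset (Fin n → ZMod 2) :=
  (powersetCard r (univ : Finset (Fin n))).image fun s i => if i ∈ s then 1 else 0

theorem card_sphere (n r : ℕ) : #(sphere n r) = n.choose r := by
  rw [sphere, Finset.card_image_of_injective, Finset.card_powersetCard, Finset.card_univ,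
    Fintype.card_fin]
  intro s t hst
  ext i
  have h := congrFun hst i
  by_cases h1 : i ∈ s <;> by_cases h2 : i ∈ t <;> simp_all

theorem weight_sphere {n r : ℕ} {x : Fin n → ZMod 2} (hx : x ∈ sphere n r) :
    #(univ.filter fun i => x i ≠ 0) = r := by
  rw [sphere, Finset.mem_image] at hx
  obtain ⟨s, hs, rfl⟩ := hx
  rw [Finset.mem_powersetCard] at hs
  rw [← hs.2]
  congr 1
  ext i
  simp

/-- `t` blocks of length `n`. -/
def blockEquiv (t n : ℕ) : (Fin t → Fin n → ZMod 2) ≃ (Fin (t * n) → ZMod 2) :=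
  (Equiv.curry (Fin t) (Fin n) (ZMod 2)).symm.trans
    (finProdFinEquiv.arrowCongr (Equiv.refl (ZMod 2)))

def blocks (t n r : ℕ) : Finset (Fin (t * n) → ZMod 2) :=
  (Fintype.piFinset fun _ : Fin t => sphere n r).map (blockEquiv t n).toEmbedding

theorem card_blocks (t n r : ℕ) : #(blocks t n r) = (n.choose r) ^ t := by
  rw [blocks, Finset.card_map, Fintype.card_piFinset_const, card_sphere]

theorem weight_blocks {t n r : ℕ} {x : Fin (t * n) → ZMod 2} (hx : x ∈ blocks t n r) :
    #(univ.filter fun i => x i ≠ 0) = t * r := by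
  rw [blocks, Finset.mem_map] at hx
  obtain ⟨y, hy, rfl⟩ := hx
  rw [Fintype.mem_piFinset] at hy
  rw [Finset.card_filter]
  have h1 : ∑ i : Fin (t * n), (if ((blockEquiv t n).toEmbedding y) i ≠ 0 then 1 else 0) =
      ∑ q : Fin t × Fin n, (if y q.1 q.2 ≠ 0 then 1 else 0) := by
    refine (Fintype.sum_equiv finProdFinEquiv _ _ ?_).symm
    intro q
    simp only [blockEquiv, Equiv.arrowCongr, Equiv.curry]
    simp
    rfl
  rw [h1, Fintype.sum_prod_type]
  have h2 : ∀ s : Fin t, ∑ i : Fin n, (if y s i ≠ 0 then 1 else 0) = r := by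
    intro s
    rw [← Finset.card_filter]
    exact weight_sphere (hy s)
  simp only [h2, Finset.sum_const, Finset.card_univ, Fintype.card_fin, smul_eq_mul]

theorem weight_four {N w : ℕ} {a b c d x : Fin N → ZMod 2}
    (ha : #(univ.filter fun i => a i ≠ 0) = w) (hb : #(univ.filter fun i => b i ≠ 0) = w)
    (hc : #(univ.filter fun i => c i ≠ 0) = w) (hd : #(univ.filter fun i => d i ≠ 0) = w)
    (hx : x = a + b - c - d) : #(univ.filter fun i => x i ≠ 0) ≤ 4 * w := by
  have h1 : (univ.filter fun i => x i ≠ 0) ⊆ ((univ.filter fun i => a i ≠ 0) ∪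
      (univ.filter fun i => b i ≠ 0)) ∪ ((univ.filter fun i => c i ≠ 0) ∪
      (univ.filter fun i => d i ≠ 0)) := by
    intro i hi
    simp only [mem_filter, mem_univ, true_and, mem_union] at hi ⊢
    by_contra hcon
    push Not at hcon
    obtain ⟨⟨h3, h4⟩, h5, h6⟩ := hcon
    apply hi
    rw [hx]
    simp [h3, h4, h5, h6]
  refine (Finset.card_le_card h1).trans ?_
  refine (Finset.card_union_le _ _).trans ?_
  have h7 := Finset.card_union_le (univ.filter fun i => a i ≠ 0) (univ.filter fun i => b i ≠ 0)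
  have h8 := Finset.card_union_le (univ.filter fun i => c i ≠ 0) (univ.filter fun i => d i ≠ 0)
  omega

/-- A triangular set inside the fourfold sum of a product of spheres has many fixed coordinates. -/
theorem blocks_tri {t n r k : ℕ} {L : Finset (Fin (t * n))} (hL : #L ≤ k)
    {φ : Fin (t * n) → (Fin (t * n) → ZMod 2) → ZMod 2} (hφ : Triangular (t * n) L φ)
    (h : ∀ x : Fin (t * n) → ZMod 2, (∀ j ∈ L, x j = φ j x) →
      ∃ a₁ ∈ blocks t n r, ∃ a₂ ∈ blocks t n r, ∃ a₃ ∈ blocks t n r, ∃ a₄ ∈ blocks t n r,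
        x = a₁ + a₂ - a₃ - a₄) :
    t * n ≤ 4 * (t * r) + k := by
  classical
  obtain ⟨x, ⟨a₁, h1, a₂, h2, a₃, h3, a₄, h4, hx⟩, hx1⟩ :=
    Tri.exists_ones (n := t * n) (L := L)
      (S := {x | ∃ a₁ ∈ blocks t n r, ∃ a₂ ∈ blocks t n r, ∃ a₃ ∈ blocks t n r,
        ∃ a₄ ∈ blocks t n r, x = a₁ + a₂ - a₃ - a₄}) ⟨φ, hφ, h⟩
  have hw := weight_four (weight_blocks h1) (weight_blocks h2) (weight_blocks h3)
    (weight_blocks h4) hx
  have hsub : (univ \ L) ⊆ univ.filter fun i => x i ≠ 0 := by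
    intro i hi
    simp only [mem_sdiff, mem_univ, true_and, mem_filter] at hi ⊢
    rw [hx1 i hi]
    exact one_ne_zero
  have hc := Finset.card_le_card hsub
  rw [Finset.card_sdiff_of_subset (Finset.subset_univ L), Finset.card_univ, Fintype.card_fin] at hc
  omega

/-- The numerical part of the lower bound. -/
theorem lower {τ : ℝ} (hτ : τ ^ 3 = τ ^ 2 + τ + 1) (h1 : 1.839 < τ) (h2 : τ < 1.84)
    {δ : ℝ} (hδ : 0 < δ) : ∃ C : ℝ, ∀ α : ℝ, 0 < α → α ≤ 1 →
      (1 - δ) * Real.logb τ (1 / α) ≤ C ∨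
      ∃ t n r : ℕ, 1 ≤ t * n ∧ α * 2 ^ (t * n) ≤ (#(blocks t n r) : ℝ) ∧
        ∀ k : ℕ, t * n ≤ 4 * (t * r) + k → (1 - δ) * Real.logb τ (1 / α) - C ≤ k := by
  obtain ⟨n, r, hr, hcard, hlog⟩ := sphere_params hτ h1 h2 hδ
  have hτ1 : 1 < τ := by linarith
  have hτ0 : 0 < τ := by linarith
  have hn0 : 0 < n := by omega
  set D : ℝ := ((n - 4 * r : ℕ) : ℝ) with hD
  have hD0 : 0 < D := by
    rw [hD]
    have : 0 < n - 4 * r := by omega
    exact_mod_cast this
  set E : ℝ := Real.logb τ (2 * ((n : ℝ) + 1)) with hE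
  have hE0 : 0 ≤ E := by
    refine Real.logb_nonneg hτ1 ?_
    have : (0 : ℝ) ≤ n := by positivity
    linarith
  refine ⟨D + E, ?_⟩
  intro α hα hα1
  set Λ : ℝ := Real.logb τ (1 / α) with hΛ
  have hΛ0 : 0 ≤ Λ := Real.logb_nonneg hτ1 (by rw [le_div_iff₀ hα]; linarith)
  set t : ℕ := ⌊Λ / (D + E)⌋₊ with ht
  have hDE : 0 < D + E := by linarith
  have ht1 : Λ / (D + E) < t + 1 := Nat.lt_floor_add_one _
  have ht2 : (t : ℝ) ≤ Λ / (D + E) := Nat.floor_le (by positivity)
  rw [div_lt_iff₀ hDE] at ht1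
  rw [le_div_iff₀ hDE] at ht2
  -- the main inequality
  have hmain : (1 - δ) * Λ ≤ D * t + (D + E) := by
    rcases le_or_gt δ 1 with hδ1 | hδ1
    · have h3 : (1 - δ) * (D + E) ≤ D := by
        nlinarith
      calc (1 - δ) * Λ ≤ (1 - δ) * ((t + 1) * (D + E)) :=
            mul_le_mul_of_nonneg_left ht1.le (by linarith)
        _ = ((1 - δ) * (D + E)) * (t + 1) := by ring
        _ ≤ D * (t + 1) := mul_le_mul_of_nonneg_right h3 (by positivity)
        _ ≤ D * t + (D + E) := by linarith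
    · have : (1 - δ) * Λ ≤ 0 := mul_nonpos_of_nonpos_of_nonneg (by linarith) hΛ0
      have h4 : 0 ≤ D * t := by positivity
      linarith
  rcases Nat.eq_zero_or_pos t with h0 | hpos
  · left
    rw [h0] at hmain
    simpa using hmain
  · right
    refine ⟨t, n, r, Nat.mul_pos hpos hn0, ?_, ?_⟩
    · rw [card_blocks]
      push_cast
      -- `τ ^ (-Λ) = α`
      have hα2 : α = τ ^ (-Λ) := by
        rw [hΛ, Real.rpow_neg hτ0.le, Real.rpow_logb hτ0 hτ1.ne' (by positivity)]
        simp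
      have hE2 : τ ^ E = 2 * ((n : ℝ) + 1) :=
        Real.rpow_logb hτ0 hτ1.ne' (by positivity)
      have hD2 : τ ^ D = τ ^ (n - 4 * r) := by
        rw [hD, Real.rpow_natCast]
      have h5 : (2 : ℝ) ^ n ≤ τ ^ (D + E) * n.choose r := by
        rw [Real.rpow_add hτ0, hE2, hD2]
        linarith
      have h6 : α * (τ ^ (D + E)) ^ t ≤ 1 := by
        rw [← Real.rpow_natCast, ← Real.rpow_mul hτ0.le, hα2, ← Real.rpow_add hτ0]
        refine Real.rpow_le_one_of_one_le_of_nonpos hτ1.le ?_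
        linarith
      rw [pow_mul']
      have h7 : ((2 : ℝ) ^ n) ^ t ≤ (τ ^ (D + E) * n.choose r) ^ t :=
        pow_le_pow_left₀ (by positivity) h5 t
      calc α * ((2 : ℝ) ^ n) ^ t ≤ α * (τ ^ (D + E) * n.choose r) ^ t :=
            mul_le_mul_of_nonneg_left h7 hα.le
        _ = (α * (τ ^ (D + E)) ^ t) * (n.choose r : ℝ) ^ t := by
            rw [mul_pow]
            ring
        _ ≤ 1 * (n.choose r : ℝ) ^ t := mul_le_mul_of_nonneg_right h6 (by positivity)
        _ = (n.choose r : ℝ) ^ t := one_mul _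
    · intro k hk
      have h8 : D * t ≤ k := by
        have h9 : (n : ℝ) * t ≤ 4 * (t * r) + k := by
          have : ((t * n : ℕ) : ℝ) ≤ ((4 * (t * r) + k : ℕ) : ℝ) := by exact_mod_cast hk
          push_cast at this
          linarith
        have h10 : D = (n : ℝ) - 4 * r := by
          rw [hD, Nat.cast_sub (by omega)]
          push_cast
          ring
        rw [h10]
        linarith
      linarith

end Pool.Agent.TRB
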