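import Pool.Agent.TRB.Greedy

set_option autoImplicit false

/-! Triangular sets in sums of four sets. -/

namespace Pool.Agent.TRB

open Finset

/-- The coordinates in `L` are functions of the earlier coordinates outside `L`. -/
def Triangular (n : ℕ) (L : Finset (Fin n)) (φ : Fin n → (Fin n → ZMod 2) → ZMod 2) : Prop :=
  ∀ j x y, (∀ i, i < j → i ∉ L → x i = y i) → φ j x = φ j y

theorem upper {τ : ℝ} (hτ : τ ^ 3 = τ ^ 2 + τ + 1) (h1 : 1 < τ) (h2 : τ < 2) (n : ℕ)
    (b : Module.Basis (Fin n) (ZMod 2) (Fin n → ZMod 2))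
    (A : Fin 4 → Finset (Fin n → ZMod 2)) (hne : ∀ i, (A i).Nonempty) :
    ∃ L : Finset (Fin n), ∃ φ : Fin n → (Fin n → ZMod 2) → ZMod 2, Triangular n L φ ∧
      (∀ x : Fin n → ZMod 2, (∀ j ∈ L, b.equivFun x j = φ j (b.equivFun x)) →
        ∃ a : Fin 4 → (Fin n → ZMod 2), (∀ i, a i ∈ A i) ∧ x = a 0 + a 1 + a 2 + a 3) ∧
      τ ^ (4 * #L) * ∏ i, (#(A i) : ℝ) ≤ ((2 : ℝ) ^ n) ^ 4 := by
  classical
  set S : Fin 4 → Set (Fin n → ZMod 2) := fun i => {c | b.equivFun.symm c ∈ A i} with hS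
  set F : Fin 4 → Finset (Fin n → Bool) := fun i => univ.filter fun B => Won n (S i) B with hF
  have hcard : ∀ i, #(F i) = #(A i) := by
    intro i
    have h3 := card_won (S i)
    have h4 : (univ.filter fun x : Fin n → ZMod 2 => x ∈ S i) =
        (A i).map b.equivFun.toEquiv.toEmbedding := by
      ext x
      simp only [hS, mem_filter, mem_univ, true_and, Set.mem_ofPred_eq, mem_map_equiv]
      rfl
    have h5 : #(univ.filter fun x : Fin n → ZMod 2 => x ∈ S i) = #(A i) := by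
      rw [h4, card_map]
    refine Eq.trans ?_ (h3.trans (Eq.trans ?_ h5))
    · congr 1
    · congr 1
      ext x
      simp
  have hFne : ∀ i, (F i).Nonempty := by
    intro i
    rw [← Finset.card_pos, hcard i]
    exact Finset.card_pos.2 (hne i)
  obtain ⟨B, hB, hle⟩ := greedy hτ h1 h2 n F
    (by
      intro i x hx y hyx
      simp only [hF, mem_filter, mem_univ, true_and] at hx ⊢
      exact Won.anti hyx hx) hFne
  have hW : ∀ i, Won n (S i) (B i) := by
    intro i
    have := hB i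
    simpa [hF] using this
  have hsum := ((((hW 0).add (hW 1)).add (hW 2)).add (hW 3)).tri
  set L : Finset (Fin n) := univ.filter fun j => ((((B 0 j || B 1 j)) || B 2 j) || B 3 j) = false
    with hL
  obtain ⟨φ, hφ1, hφ2⟩ := hsum
  refine ⟨L, φ, hφ1, ?_, ?_⟩
  · intro x hx
    obtain ⟨u, ⟨v, ⟨a0, ha0, a1, ha1, hv⟩, a2, ha2, hu⟩, a3, ha3, hx3⟩ := hφ2 (b.equivFun x) hx
    refine ⟨![b.equivFun.symm a0, b.equivFun.symm a1, b.equivFun.symm a2, b.equivFun.symm a3],
      ?_, ?_⟩
    · intro i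
      fin_cases i
      · exact ha0
      · exact ha1
      · exact ha2
      · exact ha3
    · simp only [Matrix.cons_val_zero, Matrix.cons_val_one, Matrix.cons_val]
      rw [← map_add, ← map_add, ← map_add, ← hv, ← hu, ← hx3, LinearEquiv.symm_apply_apply]
  · have hLeq : (univ.filter fun j => ∀ i, B i j = false) = L := by
      ext j
      simp only [hL, mem_filter, mem_univ, true_and, Bool.or_eq_false_iff, Fin.forall_fin_succ]
      constructor
      · rintro ⟨h0, h1', h2', h3', _⟩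
        exact ⟨⟨⟨h0, h1'⟩, h2'⟩, h3'⟩
      · rintro ⟨⟨⟨h0, h1'⟩, h2'⟩, h3'⟩
        exact ⟨h0, h1', h2', h3', fun i => i.elim0⟩
    rw [hLeq] at hle
    have : ∏ i, (#(F i) : ℝ) = ∏ i, (#(A i) : ℝ) :=
      Finset.prod_congr rfl fun i _ => by rw [hcard i]
    rw [this] at hle
    exact hle

end Pool.Agent.TRB
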