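import Mathlib

set_option autoImplicit false

/-! Order-shattering families of subsets of `F_2^n`. -/

namespace Pool.Agent.TRB

open Finset

/-- Digits are revealed in the order `0, 1, ...`; `B j = true` means that the digit `j` is chosen by
an opponent, otherwise it is chosen by us; `Won n S B`: we can reach `S`. -/
def Won : (n : ℕ) → Set (Fin n → ZMod 2) → (Fin n → Bool) → Prop
  | 0, S, _ => S.Nonempty
  | n + 1, S, B =>
      (B 0 = true → ∀ e : ZMod 2, Won n {x | (Fin.cons e x : Fin (n + 1) → ZMod 2) ∈ S} (Fin.tail B)) ∧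
      (B 0 = false → ∃ e : ZMod 2,
        Won n {x | (Fin.cons e x : Fin (n + 1) → ZMod 2) ∈ S} (Fin.tail B))

theorem Won.mono {n : ℕ} {S S' : Set (Fin n → ZMod 2)} (h : S ⊆ S') :
    ∀ {B : Fin n → Bool}, Won n S B → Won n S' B := by
  induction n with
  | zero =>
    intro B hB
    exact Set.Nonempty.mono h hB
  | succ n ih =>
    intro B hB
    refine ⟨fun h0 e => ?_, fun h0 => ?_⟩
    · exact ih (fun x hx => h hx) (hB.1 h0 e)
    · obtain ⟨e, he⟩ := hB.2 h0
      exact ⟨e, ih (fun x hx => h hx) he⟩

theorem Won.anti {n : ℕ} : ∀ {S : Set (Fin n → ZMod 2)} {B B' : Fin n → Bool}, B' ≤ B →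
    Won n S B → Won n S B' := by
  induction n with
  | zero =>
    intro S B B' _ hB
    exact hB
  | succ n ih =>
    intro S B B' hle hB
    have htail : Fin.tail B' ≤ Fin.tail B := fun i => hle i.succ
    refine ⟨fun h0 e => ?_, fun h0 => ?_⟩
    · have hB0 : B 0 = true := by
        have h1 : B' 0 ≤ B 0 := hle 0
        rw [h0] at h1
        exact Bool.eq_true_of_true_le h1
      exact ih htail (hB.1 hB0 e)
    · cases hB0 : B 0 with
      | true => exact ⟨0, ih htail (hB.1 hB0 0)⟩
      | false =>
        obtain ⟨e, he⟩ := hB.2 hB0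
        exact ⟨e, ih htail he⟩

theorem Won.add {n : ℕ} : ∀ {S S' : Set (Fin n → ZMod 2)} {B B' : Fin n → Bool},
    Won n S B → Won n S' B' →
    Won n {x | ∃ a ∈ S, ∃ b ∈ S', x = a + b} (fun j => B j || B' j) := by
  induction n with
  | zero =>
    intro S S' B B' hB hB'
    obtain ⟨a, ha⟩ := hB
    obtain ⟨b, hb⟩ := hB'
    exact ⟨a + b, a, ha, b, hb, rfl⟩
  | succ n ih =>
    intro S S' B B' hB hB'
    have key : ∀ e e' t : ZMod 2, t = e + e' →
        Won n {x | (Fin.cons e x : Fin (n + 1) → ZMod 2) ∈ S} (Fin.tail B) →
        Won n {x | (Fin.cons e' x : Fin (n + 1) → ZMod 2) ∈ S'} (Fin.tail B') →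
        Won n {x | (Fin.cons t x : Fin (n + 1) → ZMod 2) ∈ {x | ∃ a ∈ S, ∃ b ∈ S', x = a + b}}
          (Fin.tail (fun j => B j || B' j)) := by
      intro e e' t ht h1 h2
      refine Won.mono ?_ (ih h1 h2)
      rintro x ⟨a, ha, b, hb, rfl⟩
      refine ⟨Fin.cons e a, ha, Fin.cons e' b, hb, ?_⟩
      subst ht
      funext j
      refine Fin.cases ?_ (fun i => ?_) j
      · simp
      · simp
    refine ⟨fun h0 t => ?_, fun h0 => ?_⟩
    · cases hB0 : B 0 with
      | true =>
        cases hB0' : B' 0 with
        | true => exact key t 0 t (by simp) (hB.1 hB0 t) (hB'.1 hB0' 0)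
        | false =>
          obtain ⟨e', he'⟩ := hB'.2 hB0'
          exact key (t - e') e' t (by ring) (hB.1 hB0 (t - e')) he'
      | false =>
        obtain ⟨e, he⟩ := hB.2 hB0
        have hB0' : B' 0 = true := by simpa [hB0] using h0
        exact key e (t - e) t (by ring) he (hB'.1 hB0' (t - e))
    · simp only [Bool.or_eq_false_iff] at h0
      obtain ⟨e, he⟩ := hB.2 h0.1
      obtain ⟨e', he'⟩ := hB'.2 h0.2
      exact ⟨e + e', key e e' (e + e') rfl he he'⟩

theorem Won.translate {n : ℕ} : ∀ {S : Set (Fin n → ZMod 2)} {B : Fin n → Bool}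
    (u : Fin n → ZMod 2), Won n S B → Won n {x | x + u ∈ S} B := by
  induction n with
  | zero =>
    intro S B u hB
    obtain ⟨a, ha⟩ := hB
    refine ⟨a, ?_⟩
    have : a + u = a := Subsingleton.elim _ _
    change a + u ∈ S
    rw [this]
    exact ha
  | succ n ih =>
    intro S B u hB
    have key : ∀ e e' : ZMod 2, e = e' + u 0 →
        Won n {x | (Fin.cons e x : Fin (n + 1) → ZMod 2) ∈ S} (Fin.tail B) →
        Won n {x | (Fin.cons e' x : Fin (n + 1) → ZMod 2) ∈ {x | x + u ∈ S}} (Fin.tail B) := by
      intro e e' he h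
      refine Won.mono ?_ (ih (Fin.tail u) h)
      intro x hx
      simp only [Set.mem_ofPred_eq] at hx ⊢
      convert hx using 1
      funext j
      refine Fin.cases ?_ (fun i => ?_) j
      · simp [he]
      · simp [Fin.tail]
    refine ⟨fun h0 e => ?_, fun h0 => ?_⟩
    · exact key (e + u 0) e rfl (hB.1 h0 (e + u 0))
    · obtain ⟨e, he⟩ := hB.2 h0
      exact ⟨e - u 0, key e (e - u 0) (by ring) he⟩

/-- `S` contains a triangular set with free coordinates outside `L`. -/
def Tri (n : ℕ) (L : Finset (Fin n)) (S : Set (Fin n → ZMod 2)) : Prop :=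
  ∃ φ : Fin n → (Fin n → ZMod 2) → ZMod 2,
    (∀ j x y, (∀ i, i < j → i ∉ L → x i = y i) → φ j x = φ j y) ∧
    ∀ x, (∀ j ∈ L, x j = φ j x) → x ∈ S

theorem Won.tri {n : ℕ} : ∀ {S : Set (Fin n → ZMod 2)} {B : Fin n → Bool}, Won n S B →
    Tri n (univ.filter fun j => B j = false) S := by
  induction n with
  | zero =>
    intro S B hB
    obtain ⟨a, ha⟩ := hB
    refine ⟨fun j => j.elim0, fun j => j.elim0, fun x _ => ?_⟩
    have : x = a := Subsingleton.elim _ _
    rw [this]
    exact ha
  | succ n ih =>
    intro S B hB
    cases hB0 : B 0 with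
    | true =>
      have h := hB.1 hB0
      choose φ h1 h2 using fun e => ih (h e)
      refine ⟨fun j x => Fin.cases 0 (fun i => φ (x 0) i (Fin.tail x)) j, ?_, ?_⟩
      · intro j x y hxy
        revert hxy
        refine Fin.cases ?_ (fun i => ?_) j
        · intro _
          simp
        · intro hxy
          simp only [Fin.cases_succ]
          have h0 : x 0 = y 0 := hxy 0 (Fin.succ_pos i) (by simp [hB0])
          rw [h0]
          refine h1 (y 0) i _ _ ?_
          intro i' hi' hi'L
          refine hxy i'.succ (by simpa using hi') ?_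
          simpa [Fin.tail] using hi'L
      · intro x hx
        have hx' : Fin.tail x ∈ {z | (Fin.cons (x 0) z : Fin (n + 1) → ZMod 2) ∈ S} := by
          refine h2 (x 0) (Fin.tail x) ?_
          intro j hj
          have := hx j.succ (by simpa [Fin.tail] using hj)
          simpa [Fin.tail] using this
        simpa using hx'
    | false =>
      obtain ⟨e, he⟩ := hB.2 hB0
      obtain ⟨φ, h1, h2⟩ := ih he
      refine ⟨fun j x => Fin.cases e (fun i => φ i (Fin.tail x)) j, ?_, ?_⟩
      · intro j x y hxy
        revert hxy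
        refine Fin.cases ?_ (fun i => ?_) j
        · intro _
          simp
        · intro hxy
          simp only [Fin.cases_succ]
          refine h1 i _ _ ?_
          intro i' hi' hi'L
          refine hxy i'.succ (by simpa using hi') ?_
          simpa [Fin.tail] using hi'L
      · intro x hx
        have h0 : x 0 = e := by
          have := hx 0 (by simp [hB0])
          simpa using this
        have hx' : Fin.tail x ∈ {z | (Fin.cons e z : Fin (n + 1) → ZMod 2) ∈ S} := by
          refine h2 (Fin.tail x) ?_
          intro j hj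
          have := hx j.succ (by simpa [Fin.tail] using hj)
          simpa [Fin.tail] using this
        rw [Set.mem_ofPred_eq, ← h0] at hx'
        simpa using hx'

/-- A triangular set contains a point all of whose free coordinates are `1`. -/
theorem Tri.exists_ones {n : ℕ} {L : Finset (Fin n)} {S : Set (Fin n → ZMod 2)}
    (h : Tri n L S) : ∃ x ∈ S, ∀ i, i ∉ L → x i = 1 := by
  classical
  obtain ⟨φ, h1, h2⟩ := h
  refine ⟨fun j => if j ∈ L then φ j (fun _ => 1) else 1, ?_, ?_⟩
  · refine h2 _ ?_
    intro j hj
    simp only [hj, if_true]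
    refine h1 j _ _ ?_
    intro i _ hiL
    simp [hiL]
  · intro i hi
    simp [hi]

section count

open Classical in
/-- Sections of a family of boolean vectors. -/
theorem card_cons {n : ℕ} {β : Type*} [Fintype β] (P : (Fin (n + 1) → β) → Prop) :
    #(univ.filter P) = ∑ b : β, #(univ.filter fun x : Fin n → β => P (Fin.cons b x)) := by
  have h1 : #(univ.filter P) = #(univ.filter fun q : β × (Fin n → β) => P (Fin.cons q.1 q.2)) := by
    refine Finset.card_bij' (fun x _ => (x 0, Fin.tail x)) (fun q _ => Fin.cons q.1 q.2) ?_ ?_ ?_ ?_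
    · intro x hx
      simp only [mem_filter, mem_univ, true_and] at hx ⊢
      simpa using hx
    · intro q hq
      simpa using hq
    · intro x _
      simp
    · intro q _
      simp
  rw [h1, ← Finset.univ_product_univ, Finset.card_filter, Finset.sum_product]
  refine Finset.sum_congr rfl fun b _ => ?_
  rw [Finset.card_filter]

open Classical in
theorem card_won {n : ℕ} : ∀ S : Set (Fin n → ZMod 2),
    #(univ.filter fun B : Fin n → Bool => Won n S B) =
      #(univ.filter fun x : Fin n → ZMod 2 => x ∈ S) := by
  induction n with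
  | zero =>
    intro S
    by_cases h : S.Nonempty
    · have h1 : (univ.filter fun B : Fin 0 → Bool => Won 0 S B) = univ := by
        refine Finset.filter_true_of_mem fun B _ => ?_
        exact h
      have h2 : (univ.filter fun x : Fin 0 → ZMod 2 => x ∈ S) = univ := by
        refine Finset.filter_true_of_mem fun x _ => ?_
        obtain ⟨a, ha⟩ := h
        have : x = a := Subsingleton.elim _ _
        rw [this]
        exact ha
      rw [h1, h2]
      simp
    · have h1 : (univ.filter fun B : Fin 0 → Bool => Won 0 S B) = ∅ := by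
        refine Finset.filter_false_of_mem fun B _ hB => h hB
      have h2 : (univ.filter fun x : Fin 0 → ZMod 2 => x ∈ S) = ∅ := by
        refine Finset.filter_false_of_mem fun x _ hx => h ⟨x, hx⟩
      rw [h1, h2]
      simp
  | succ n ih =>
    intro S
    rw [card_cons, card_cons]
    have hB : ∀ f : Bool → ℕ, ∑ b : Bool, f b = f true + f false := by
      intro f
      simp
    have hZ : ∀ f : ZMod 2 → ℕ, ∑ b : ZMod 2, f b = f 0 + f 1 := by
      intro f
      exact Fin.sum_univ_two f
    rw [hB, hZ]
    set W : ZMod 2 → Finset (Fin n → Bool) := fun e => univ.filter fun B =>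
      Won n {x | (Fin.cons e x : Fin (n + 1) → ZMod 2) ∈ S} B with hW
    have h1 : (univ.filter fun x : Fin n → Bool => Won (n + 1) S (Fin.cons true x)) =
        W 0 ∩ W 1 := by
      ext B
      simp only [hW, mem_filter, mem_univ, true_and, mem_inter, Won, Fin.cons_zero, Fin.tail_cons,
        forall_const]
      constructor
      · intro h
        exact ⟨h.1 0, h.1 1⟩
      · intro h
        refine ⟨fun e => ?_, fun h' => by simp at h'⟩
        fin_cases e
        · exact h.1
        · exact h.2
    have h2 : (univ.filter fun x : Fin n → Bool => Won (n + 1) S (Fin.cons false x)) =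
        W 0 ∪ W 1 := by
      ext B
      simp only [hW, mem_filter, mem_univ, true_and, mem_union, Won, Fin.cons_zero, Fin.tail_cons,
        forall_const]
      constructor
      · intro h
        obtain ⟨e, he⟩ := h.2
        fin_cases e
        · exact Or.inl he
        · exact Or.inr he
      · intro h
        refine ⟨fun h' => by simp at h', ?_⟩
        rcases h with h | h
        · exact ⟨0, h⟩
        · exact ⟨1, h⟩
    rw [h1, h2, Finset.card_inter_add_card_union]
    rw [hW]
    simp only
    rw [ih, ih]
    rfl

end count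

end Pool.Agent.TRB
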